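import Pool.Agent.Work.MP_2beaeb_nt.Result

/-!
# MP_2beaeb_nt: the ratios `σ(n+1)/σ(n)` taken infinitely often are dense

For all real `0 < a < b` there is a rational `r` in `(a, b)` such that `σ(n+1) = r σ(n)` for infinitely
many `n`; more precisely, for every `ε > 0` there are arbitrarily large `X` with at least `X^(1-ε)`
such `n ≤ X`.

Proof: sets `x_1 < ... < x_k` with `x_j - x_i ∣ x_i` and all ratios of abundancies
`h(u)/h(u+1)`, `u = x_i/(x_j - x_i)`, in `(a, b)` (`HBSet`, `Signs`, `Abundancy`), and the theorem of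
Maynard and Tao (`MT.maynard_count`), which gives two primes `p = x_i t - 1`, `q = x_j t - 1`; then
`n = (u+1) p`, `n + 1 = u q`.
-/

set_option autoImplicit false

namespace Pool.Agent.Results.MP_2beaeb_nt.DenseRatios

theorem result : ∀ a b : ℝ, 0 < a → a < b → ∃ r : ℚ, a < (r : ℝ) ∧ (r : ℝ) < b ∧
    ∀ ε : ℝ, 0 < ε → ∀ X₀ : ℕ, ∃ X : ℕ, X₀ ≤ X ∧ (X : ℝ) ^ (1 - ε) ≤
      (((Finset.Icc 1 X).filter (fun n =>
        (ArithmeticFunction.sigma 1 (n + 1) : ℚ) = r * ArithmeticFunction.sigma 1 n)).card : ℝ) :=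
  Pool.Agent.Work.MP_2beaeb_nt.result_aux

end Pool.Agent.Results.MP_2beaeb_nt.DenseRatios
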